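import Mathlib
import Pool.Agent.Y748.SR.Stm

/-!
# Stable set functions satisfy the Rayleigh inequalities
-/

open Finset Filter Topology

set_option autoImplicit false

namespace Pool.Agent.Y932.SR

open Pool.Agent.Y748.SR

variable {X : Type} [DecidableEq X]

theorem quad {a b c : ℝ} (h : ∀ t : ℝ, a * t ^ 2 + b * t + c ≤ 0) : a ≤ 0 := by
  by_contra ha
  push Not at ha
  have h1 := h (1 + (|b| + |c|) / a)
  have h2 : a * (1 + (|b| + |c|) / a) = a + |b| + |c| := by
    field_simp
    ring
  have h3 : 1 ≤ 1 + (|b| + |c|) / a := by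
    have : 0 ≤ (|b| + |c|) / a := by positivity
    linarith
  set t := 1 + (|b| + |c|) / a
  have h4 : a * t ^ 2 + b * t + c = t * (a * t + b) + c := by ring
  rw [h4, h2] at h1
  have h5 : a + |c| ≤ a + |b| + |c| + b := by linarith [neg_abs_le b]
  have h6 : 0 < a + |c| := by positivity
  have h7 : a + |c| ≤ t * (a + |b| + |c| + b) := by nlinarith
  linarith [neg_abs_le c]

theorem PW_insert (f : Finset X → ℝ) (D Y : Finset X) (w : X → ℝ) (k : X) (t : ℝ) (hk : k ∉ Y) :
    PW f D (insert k Y) (Function.update w k t) = PW f D Y w + t * PW f (insert k D) Y w := by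
  unfold PW
  rw [Finset.sum_powerset_insert hk, Finset.mul_sum]
  congr 1
  · refine Finset.sum_congr rfl fun B hB => ?_
    congr 1
    refine Finset.prod_congr rfl fun i hi => ?_
    rw [Function.update_of_ne]
    rintro rfl
    exact hk (Finset.mem_powerset.1 hB hi)
  · refine Finset.sum_congr rfl fun B hB => ?_
    have hkB : k ∉ B := fun h => hk (Finset.mem_powerset.1 hB h)
    rw [Finset.prod_insert hkB, Function.update_self, Finset.union_insert, Finset.insert_union]
    have : ∏ i ∈ B, Function.update w k t i = ∏ i ∈ B, w i :=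
      Finset.prod_congr rfl fun i hi =>
        Function.update_of_ne (fun h : i = k => hkB (h ▸ hi)) _ _
    rw [this]
    ring

theorem cs_insert (F : Finset X → ℂ) (Y : Finset X) (W : X → ℂ) (k : X) (t : ℂ) (hk : k ∉ Y) :
    ∑ B ∈ (insert k Y).powerset, F B * ∏ i ∈ B, Function.update W k t i =
      (∑ B ∈ Y.powerset, F B * ∏ i ∈ B, W i) +
        t * ∑ B ∈ Y.powerset, F (insert k B) * ∏ i ∈ B, W i := by
  rw [Finset.sum_powerset_insert hk, Finset.mul_sum]
  congr 1
  · refine Finset.sum_congr rfl fun B hB => ?_
    congr 1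
    refine Finset.prod_congr rfl fun i hi => ?_
    rw [Function.update_of_ne]
    rintro rfl
    exact hk (Finset.mem_powerset.1 hB hi)
  · refine Finset.sum_congr rfl fun B hB => ?_
    have hkB : k ∉ B := fun h => hk (Finset.mem_powerset.1 hB h)
    rw [Finset.prod_insert hkB, Function.update_self]
    have : ∏ i ∈ B, Function.update W k t i = ∏ i ∈ B, W i :=
      Finset.prod_congr rfl fun i hi =>
        Function.update_of_ne (fun h : i = k => hkB (h ▸ hi)) _ _
    rw [this]
    ring

/-- the case of an empty set of present sites -/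
theorem ray_empty (f : Finset X → ℝ) (hf : Stable f) (Y : Finset X) (i j : X) (w : X → ℝ)
    (hij : i ≠ j) (hi : i ∉ Y) (hj : j ∉ Y) : RayI f ∅ Y i j w := by
  unfold RayI
  by_contra hcon
  push Not at hcon
  let Q : Finset X → ℝ → ℂ := fun D ε =>
    ∑ B ∈ Y.powerset, (f (D ∪ B) : ℂ) * ∏ k ∈ B, ((w k : ℂ) + ε * Complex.I)
  have hQc : ∀ D, Continuous (Q D) := fun D => by
    refine continuous_finsetSum _ fun B _ => continuous_const.mul ?_
    refine continuous_finsetProd _ fun k _ => ?_
    exact continuous_const.add (Complex.continuous_ofReal.mul continuous_const)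
  have hQ0 : ∀ D, Q D 0 = ((PW f D Y w : ℝ) : ℂ) := by
    intro D
    simp [Q, PW]
  set a := PW f ∅ Y w with ha
  set b := PW f (insert i ∅) Y w with hb
  set c := PW f (insert j ∅) Y w with hc
  set d := PW f (insert i (insert j ∅)) Y w with hd
  have hbd : (b : ℂ) + d * Complex.I ≠ 0 := by
    intro h
    have h1 := congrArg Complex.re h
    have h2 := congrArg Complex.im h
    simp at h1 h2
    rw [h1, h2] at hcon
    simp at hcon
  have hbd2 : 0 < b ^ 2 + d ^ 2 := by
    rcases eq_or_ne b 0 with h | h
    · rcases eq_or_ne d 0 with h' | h'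
      · exfalso
        apply hbd
        rw [h, h']
        simp
      · positivity
    · positivity
  let den : ℝ → ℂ := fun ε => Q (insert i ∅) ε + Q (insert i (insert j ∅)) ε * Complex.I
  let num : ℝ → ℂ := fun ε => Q ∅ ε + Q (insert j ∅) ε * Complex.I
  have hdenc : Continuous den := (hQc _).add ((hQc _).mul continuous_const)
  have hnumc : Continuous num := (hQc _).add ((hQc _).mul continuous_const)
  have hden0 : den 0 = (b : ℂ) + d * Complex.I := by
    simp only [den, hQ0]
    rfl
  have hnum0 : num 0 = (a : ℂ) + c * Complex.I := by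
    simp only [num, hQ0]
    rfl
  have hden0' : den 0 ≠ 0 := by rw [hden0]; exact hbd
  have hz : ContinuousAt (fun ε => -(num ε / den ε)) 0 :=
    (hnumc.continuousAt.div hdenc.continuousAt hden0').neg
  have him : (-(num 0 / den 0)).im = (a * d - b * c) / (b ^ 2 + d ^ 2) := by
    rw [hden0, hnum0, Complex.neg_im, Complex.div_im]
    simp [Complex.normSq_apply]
    field_simp
  have hpos : 0 < (-(num 0 / den 0)).im := by
    rw [him]
    exact div_pos (by linarith) hbd2
  have e1 : ∀ᶠ ε in 𝓝[>] (0 : ℝ), 0 < (-(num ε / den ε)).im :=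
    ((Complex.continuous_im.continuousAt.comp hz).eventually_const_lt hpos).filter_mono
      nhdsWithin_le_nhds
  have e2 : ∀ᶠ ε in 𝓝[>] (0 : ℝ), den ε ≠ 0 :=
    (hdenc.continuousAt.eventually_ne hden0').filter_mono nhdsWithin_le_nhds
  have e3 : ∀ᶠ ε in 𝓝[>] (0 : ℝ), 0 < ε := self_mem_nhdsWithin
  obtain ⟨ε, h1, h2, h3⟩ := (e1.and (e2.and e3)).exists
  let W : X → ℂ := fun k => (w k : ℂ) + ε * Complex.I
  have hij' : i ∉ insert j Y := by
    rw [Finset.mem_insert]
    push Not
    exact ⟨hij, hi⟩
  refine hf (insert i (insert j Y))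
    (Function.update (Function.update W j Complex.I) i (-(num ε / den ε))) ?_ ?_
  · intro k hk
    by_cases hki : k = i
    · rw [hki, Function.update_self]
      exact h1
    · rw [Function.update_of_ne hki]
      by_cases hkj : k = j
      · rw [hkj, Function.update_self]
        simp
      · rw [Function.update_of_ne hkj]
        simp only [W]
        simpa using h3
  · rw [cs_insert (fun B => (f B : ℂ)) _ _ _ _ hij', cs_insert (fun B => (f B : ℂ)) _ _ _ _ hj,
      cs_insert (fun B => (f (insert i B) : ℂ)) _ _ _ _ hj]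
    have k1 : ∑ B ∈ Y.powerset, (f B : ℂ) * ∏ k ∈ B, W k = Q ∅ ε := by
      simp [Q, W]
    have k2 : ∑ B ∈ Y.powerset, (f (insert j B) : ℂ) * ∏ k ∈ B, W k = Q (insert j ∅) ε := by
      simp [Q, W]
    have k3 : ∑ B ∈ Y.powerset, (f (insert i B) : ℂ) * ∏ k ∈ B, W k = Q (insert i ∅) ε := by
      simp [Q, W]
    have k4 : ∑ B ∈ Y.powerset, (f (insert i (insert j B)) : ℂ) * ∏ k ∈ B, W k =
        Q (insert i (insert j ∅)) ε := by
      simp [Q, W, Finset.insert_union]
    rw [k1, k2, k3, k4]
    have k5 : Q (insert i ∅) ε + Complex.I * Q (insert i (insert j ∅)) ε = den ε := by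
      simp only [den]
      ring
    have k6 : Q ∅ ε + Complex.I * Q (insert j ∅) ε = num ε := by
      simp only [num]
      ring
    rw [k5, k6]
    field_simp
    ring

theorem t_RAY : S_RAY := by
  intro X _ f hf C
  induction C using Finset.induction_on with
  | empty =>
    intro Y i j w hij _ _ hi hj _
    exact ray_empty f hf Y i j w hij hi hj
  | insert k C hk ih =>
    intro Y i j w hij hiC hjC hi hj hdis
    rw [Finset.mem_insert] at hiC hjC
    push Not at hiC hjC
    rw [Finset.disjoint_insert_left] at hdis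
    have hall : ∀ t : ℝ, RayI f C (insert k Y) i j (Function.update w k t) := by
      intro t
      apply ih _ _ _ _ hij hiC.2 hjC.2
      · rw [Finset.mem_insert]
        push Not
        exact ⟨hiC.1, hi⟩
      · rw [Finset.mem_insert]
        push Not
        exact ⟨hjC.1, hj⟩
      · rw [Finset.disjoint_insert_right]
        exact ⟨hk, hdis.2⟩
    unfold RayI at hall ⊢
    have h1 : insert k (insert i (insert j C)) = insert i (insert j (insert k C)) := by
      rw [Finset.insert_comm k i, Finset.insert_comm k j]
    have h2 : insert k (insert i C) = insert i (insert k C) := Finset.insert_comm _ _ _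
    have h3 : insert k (insert j C) = insert j (insert k C) := Finset.insert_comm _ _ _
    simp only [PW_insert f _ Y w k _ hdis.1, h1, h2, h3] at hall
    set A0 := PW f C Y w
    set A1 := PW f (insert k C) Y w
    set D0 := PW f (insert i (insert j C)) Y w
    set D1 := PW f (insert i (insert j (insert k C))) Y w
    set B0 := PW f (insert i C) Y w
    set B1 := PW f (insert i (insert k C)) Y w
    set C0 := PW f (insert j C) Y w
    set C1 := PW f (insert j (insert k C)) Y w
    have h4 : A1 * D1 - B1 * C1 ≤ 0 := by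
      apply quad (b := A0 * D1 + A1 * D0 - B0 * C1 - B1 * C0) (c := A0 * D0 - B0 * C0)
      intro t
      have := hall t
      linarith
    linarith

end Pool.Agent.Y932.SR
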